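import Pool.Agent.H691R3.Global

/-!
# The product formula as an inequality
-/

set_option autoImplicit false

namespace Pool.Agent.Z932.U557

open NumberField IsDedekindDomain Finset
open Pool.Agent.H691R3

variable {K : Type} [Field K] [NumberField K]

theorem sup_fv_pos (v : HeightOneSpectrum (𝓞 K)) {ι : Type} [Fintype ι] {x : ι → K} (hx : x ≠ 0) :
    0 < ⨆ i, fv v (x i) := by
  obtain ⟨i, hi⟩ := Function.ne_iff.1 hx
  exact lt_of_lt_of_le ((fv v).pos hi)
    (le_ciSup (f := fun i => fv v (x i)) (Set.finite_range _).bddAbove i)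

omit [NumberField K] in
theorem sup_w_pos (w : InfinitePlace K) {ι : Type} [Fintype ι] {x : ι → K} (hx : x ≠ 0) :
    0 < ⨆ i, w (x i) := by
  obtain ⟨i, hi⟩ := Function.ne_iff.1 hx
  exact lt_of_lt_of_le (w.pos_iff.2 hi)
    (le_ciSup (f := fun i => w (x i)) (Set.finite_range _).bddAbove i)

theorem sup_finite {ι : Type} [Fintype ι] {x : ι → K} (hx : x ≠ 0) :
    {v : HeightOneSpectrum (𝓞 K) | (⨆ i, fv v (x i)) ≠ 1}.Finite := by
  classical
  obtain ⟨i0, hi0⟩ := Function.ne_iff.1 hx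
  have h1 : (⋃ i ∈ {i : ι | x i ≠ 0}, {v : HeightOneSpectrum (𝓞 K) | fv v (x i) ≠ 1}).Finite :=
    (Set.toFinite {i : ι | x i ≠ 0}).biUnion fun i hi => fv_support_finite hi
  refine h1.subset fun v hv => ?_
  by_contra hcon
  apply hv
  have h2 : ∀ i, x i ≠ 0 → fv v (x i) = 1 := by
    intro i hi
    by_contra h3
    apply hcon
    exact Set.mem_biUnion (show i ∈ {i : ι | x i ≠ 0} from hi) h3
  have : Nonempty ι := ⟨i0⟩
  apply le_antisymm
  · refine ciSup_le fun i => ?_
    by_cases hi : x i = 0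
    · rw [hi, map_zero]
      exact zero_le_one
    · exact (h2 i hi).le
  · rw [← h2 i0 hi0]
    exact le_ciSup (f := fun i => fv v (x i)) (Set.finite_range _).bddAbove i0

/-- the height of a point as a sum of local terms -/
theorem logHeight_sum {ι : Type} [Fintype ι] {x : ι → K} (hx : x ≠ 0)
    (V : Finset (HeightOneSpectrum (𝓞 K))) (hV : ∀ v, v ∉ V → (⨆ i, fv v (x i)) = 1) :
    Height.logHeight x = ∑ w : InfinitePlace K, (w.mult : ℝ) * Real.log (⨆ i, w (x i)) +
      ∑ v ∈ V, Real.log (⨆ i, fv v (x i)) := by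
  rw [Height.logHeight_eq_log_mulHeight, NumberField.mulHeight_eq hx]
  have h1 : ∏ᶠ v : FinitePlace K, ⨆ i, v (x i) = ∏ v ∈ V, ⨆ i, fv v (x i) := by
    rw [← finprod_comp_equiv (FinitePlace.equivHeightOneSpectrum (K := K)).symm]
    have h2 : ∀ v : HeightOneSpectrum (𝓞 K), (⨆ i,
        ((FinitePlace.equivHeightOneSpectrum (K := K)).symm v) (x i)) = ⨆ i, fv v (x i) :=
      fun v => rfl
    simp_rw [h2]
    refine finprod_eq_prod_of_mulSupport_subset _ ?_
    intro v hv
    by_contra h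
    rw [Function.mem_mulSupport] at hv
    exact hv (hV v h)
  rw [h1, Real.log_mul, Real.log_prod, Real.log_prod]
  · congr 1
    refine Finset.sum_congr rfl fun w _ => ?_
    rw [Real.log_pow]
  · exact fun v _ => (sup_fv_pos v hx).ne'
  · exact fun w _ => pow_ne_zero _ (sup_w_pos w hx).ne'
  · exact Finset.prod_ne_zero_iff.2 fun w _ => pow_ne_zero _ (sup_w_pos w hx).ne'
  · exact Finset.prod_ne_zero_iff.2 fun v _ => (sup_fv_pos v hx).ne'

/-- the product formula in logarithmic form -/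
theorem product_log {z : K} (hz : z ≠ 0) (V : Finset (HeightOneSpectrum (𝓞 K)))
    (hV : ∀ v, v ∉ V → fv v z = 1) :
    ∑ w : InfinitePlace K, (w.mult : ℝ) * Real.log (w z) + ∑ v ∈ V, Real.log (fv v z) = 0 := by
  have h := NumberField.prod_abs_eq_one hz
  have h1 : ∏ᶠ v : FinitePlace K, v z = ∏ v ∈ V, fv v z := by
    rw [← finprod_comp_equiv (FinitePlace.equivHeightOneSpectrum (K := K)).symm]
    have h2 : ∀ v : HeightOneSpectrum (𝓞 K),
        ((FinitePlace.equivHeightOneSpectrum (K := K)).symm v) z = fv v z := fun v => rfl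
    simp_rw [h2]
    refine finprod_eq_prod_of_mulSupport_subset _ ?_
    intro v hv
    by_contra h
    rw [Function.mem_mulSupport] at hv
    exact hv (hV v h)
  rw [h1] at h
  have h4 := congrArg Real.log h
  rw [Real.log_one, Real.log_mul, Real.log_prod, Real.log_prod] at h4
  · rw [← h4]
    congr 1
    refine Finset.sum_congr rfl fun w _ => ?_
    rw [Real.log_pow]
  · exact fun v _ => ((fv v).pos hz).ne'
  · exact fun w _ => pow_ne_zero _ (w.pos_iff.2 hz).ne'
  · exact Finset.prod_ne_zero_iff.2 fun w _ => pow_ne_zero _ (w.pos_iff.2 hz).ne'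
  · exact Finset.prod_ne_zero_iff.2 fun v _ => ((fv v).pos hz).ne'

theorem pf (ι ι' ι'' : Type) [Fintype ι] [Fintype ι'] [Fintype ι''] (y : ι → K) (c : ι' → K)
    (c' : ι'' → K) (z : K) (k k' : ℕ) (A : ℝ) (hy : y ≠ 0) (hc : c ≠ 0) (hc' : c' ≠ 0)
    (hz : z ≠ 0) (hA : 1 ≤ A)
    (h1 : ∀ v : HeightOneSpectrum (𝓞 K),
      fv v z * (⨆ i, fv v (y i)) ≤ (⨆ i, fv v (c i)) ^ k * (⨆ i, fv v (c' i)) ^ k')
    (h2 : ∀ w : InfinitePlace K,
      w z * (⨆ i, w (y i)) ≤ A * ((⨆ i, w (c i)) ^ k * (⨆ i, w (c' i)) ^ k'))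
    (V : Finset (HeightOneSpectrum (𝓞 K))) :
    ∑ v ∈ V, (k * Real.log (⨆ i, fv v (c i)) + k' * Real.log (⨆ i, fv v (c' i)) -
        Real.log (fv v z) - Real.log (⨆ i, fv v (y i))) + Height.logHeight y ≤
      k * Height.logHeight c + k' * Height.logHeight c' +
        (Module.finrank ℚ K : ℝ) * Real.log A := by
  classical
  obtain ⟨W, hW⟩ : ∃ W : Finset (HeightOneSpectrum (𝓞 K)), W = V ∪ ((sup_finite hy).toFinset ∪
      ((sup_finite hc).toFinset ∪ ((sup_finite hc').toFinset ∪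
        (fv_support_finite hz).toFinset))) := ⟨_, rfl⟩
  have hVW : V ⊆ W := by rw [hW]; exact Finset.subset_union_left
  have hmem : ∀ v, v ∉ W → (⨆ i, fv v (y i)) = 1 ∧ (⨆ i, fv v (c i)) = 1 ∧
      (⨆ i, fv v (c' i)) = 1 ∧ fv v z = 1 := by
    intro v hv
    rw [hW] at hv
    simp only [Finset.mem_union, Set.Finite.mem_toFinset, Set.mem_ofPred_eq, not_or,
      not_not] at hv
    exact ⟨hv.2.1, hv.2.2.1, hv.2.2.2.1, hv.2.2.2.2⟩
  have e1 := logHeight_sum hy W fun v hv => (hmem v hv).1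
  have e2 := logHeight_sum hc W fun v hv => (hmem v hv).2.1
  have e3 := logHeight_sum hc' W fun v hv => (hmem v hv).2.2.1
  have e4 := product_log hz W fun v hv => (hmem v hv).2.2.2
  have e5 : ∀ v : HeightOneSpectrum (𝓞 K),
      0 ≤ k * Real.log (⨆ i, fv v (c i)) + k' * Real.log (⨆ i, fv v (c' i)) -
        Real.log (fv v z) - Real.log (⨆ i, fv v (y i)) := by
    intro v
    have p1 := sup_fv_pos v hy
    have p2 := sup_fv_pos v hc
    have p3 := sup_fv_pos v hc'
    have p4 := (fv v).pos hz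
    have h3 := Real.log_le_log (mul_pos p4 p1) (h1 v)
    rw [Real.log_mul p4.ne' p1.ne', Real.log_mul (pow_pos p2 _).ne' (pow_pos p3 _).ne',
      Real.log_pow, Real.log_pow] at h3
    linarith
  have e6 : ∑ v ∈ V, (k * Real.log (⨆ i, fv v (c i)) + k' * Real.log (⨆ i, fv v (c' i)) -
        Real.log (fv v z) - Real.log (⨆ i, fv v (y i))) ≤
      ∑ v ∈ W, (k * Real.log (⨆ i, fv v (c i)) + k' * Real.log (⨆ i, fv v (c' i)) -
        Real.log (fv v z) - Real.log (⨆ i, fv v (y i))) :=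
    Finset.sum_le_sum_of_subset_of_nonneg hVW fun v _ _ => e5 v
  have e6' : ∑ v ∈ W, (k * Real.log (⨆ i, fv v (c i)) + k' * Real.log (⨆ i, fv v (c' i)) -
        Real.log (fv v z) - Real.log (⨆ i, fv v (y i))) =
      k * ∑ v ∈ W, Real.log (⨆ i, fv v (c i)) + k' * ∑ v ∈ W, Real.log (⨆ i, fv v (c' i)) -
        ∑ v ∈ W, Real.log (fv v z) - ∑ v ∈ W, Real.log (⨆ i, fv v (y i)) := by
    rw [Finset.sum_sub_distrib, Finset.sum_sub_distrib, Finset.sum_add_distrib, ← Finset.mul_sum,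
      ← Finset.mul_sum]
  rw [e6'] at e6
  have e7 : ∀ w : InfinitePlace K, (w.mult : ℝ) * Real.log (w z) +
      (w.mult : ℝ) * Real.log (⨆ i, w (y i)) ≤ (w.mult : ℝ) * Real.log A +
        (k * ((w.mult : ℝ) * Real.log (⨆ i, w (c i))) +
          k' * ((w.mult : ℝ) * Real.log (⨆ i, w (c' i)))) := by
    intro w
    have p1 := sup_w_pos w hy
    have p2 := sup_w_pos w hc
    have p3 := sup_w_pos w hc'
    have p4 : 0 < w z := w.pos_iff.2 hz
    have p5 : 0 < A := by linarith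
    have h3 := Real.log_le_log (mul_pos p4 p1) (h2 w)
    rw [Real.log_mul p4.ne' p1.ne', Real.log_mul p5.ne' (mul_pos (pow_pos p2 _)
      (pow_pos p3 _)).ne', Real.log_mul (pow_pos p2 _).ne' (pow_pos p3 _).ne',
      Real.log_pow, Real.log_pow] at h3
    have h4 := mul_le_mul_of_nonneg_left h3 (Nat.cast_nonneg (α := ℝ) w.mult)
    linarith
  have e8 := Finset.sum_le_sum fun w (_ : w ∈ (Finset.univ : Finset (InfinitePlace K))) => e7 w
  rw [Finset.sum_add_distrib, Finset.sum_add_distrib, Finset.sum_add_distrib, ← Finset.sum_mul,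
    ← Finset.mul_sum, ← Finset.mul_sum] at e8
  have e9 : ∑ w : InfinitePlace K, (w.mult : ℝ) = Module.finrank ℚ K := by
    exact_mod_cast InfinitePlace.sum_mult_eq (K := K)
  rw [e9] at e8
  rw [e1, e2, e3]
  linarith

end Pool.Agent.Z932.U557
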