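import Pool.Agent.Y557.U.Stm
import Pool.Agent.Z932.U557.PF0

/-!
# The product formula as an inequality (`S_PF`)
-/

set_option autoImplicit false

namespace Pool.Agent.Z932.U557

open NumberField

theorem pf_holds (K : Type) [Field K] [NumberField K] : Pool.Agent.Y557.U.S_PF K := by
  intro ι ι' ι'' _ _ _ y c c' z k k' A hy hc hc' hz hA h1 h2 V
  exact pf ι ι' ι'' y c c' z k k' A hy hc hc' hz hA h1 h2 V

end Pool.Agent.Z932.U557
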