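import Pool.Agent.Z932.U557.PF0

/-!
# The product formula as an inequality, with three vectors
-/

set_option autoImplicit false

namespace Pool.Agent.Z932.U557

open NumberField IsDedekindDomain Finset
open Pool.Agent.H691R3

variable {K : Type} [Field K] [NumberField K]

theorem pf3 (ι ι₁ ι₂ ι₃ : Type) [Fintype ι] [Fintype ι₁] [Fintype ι₂] [Fintype ι₃] (y : ι → K)
    (c₁ : ι₁ → K) (c₂ : ι₂ → K) (c₃ : ι₃ → K) (z : K) (k₁ k₂ k₃ : ℕ) (A : ℝ)
    (hy : y ≠ 0) (hc₁ : c₁ ≠ 0) (hc₂ : c₂ ≠ 0) (hc₃ : c₃ ≠ 0) (hz : z ≠ 0) (hA : 1 ≤ A)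
    (h1 : ∀ v : HeightOneSpectrum (𝓞 K),
      fv v z * (⨆ i, fv v (y i)) ≤
        (⨆ i, fv v (c₁ i)) ^ k₁ * (⨆ i, fv v (c₂ i)) ^ k₂ * (⨆ i, fv v (c₃ i)) ^ k₃)
    (h2 : ∀ w : InfinitePlace K,
      w z * (⨆ i, w (y i)) ≤
        A * ((⨆ i, w (c₁ i)) ^ k₁ * (⨆ i, w (c₂ i)) ^ k₂ * (⨆ i, w (c₃ i)) ^ k₃))
    (V : Finset (HeightOneSpectrum (𝓞 K))) :
    ∑ v ∈ V, (k₁ * Real.log (⨆ i, fv v (c₁ i)) + k₂ * Real.log (⨆ i, fv v (c₂ i)) +
        k₃ * Real.log (⨆ i, fv v (c₃ i)) -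
        Real.log (fv v z) - Real.log (⨆ i, fv v (y i))) + Height.logHeight y ≤
      k₁ * Height.logHeight c₁ + k₂ * Height.logHeight c₂ + k₃ * Height.logHeight c₃ +
        (Module.finrank ℚ K : ℝ) * Real.log A := by
  classical
  obtain ⟨W, hW⟩ : ∃ W : Finset (HeightOneSpectrum (𝓞 K)), W = V ∪ ((sup_finite hy).toFinset ∪
      ((sup_finite hc₁).toFinset ∪ ((sup_finite hc₂).toFinset ∪ ((sup_finite hc₃).toFinset ∪
        (fv_support_finite hz).toFinset)))) := ⟨_, rfl⟩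
  have hVW : V ⊆ W := by rw [hW]; exact Finset.subset_union_left
  have hmem : ∀ v, v ∉ W → (⨆ i, fv v (y i)) = 1 ∧ (⨆ i, fv v (c₁ i)) = 1 ∧
      (⨆ i, fv v (c₂ i)) = 1 ∧ (⨆ i, fv v (c₃ i)) = 1 ∧ fv v z = 1 := by
    intro v hv
    rw [hW] at hv
    simp only [Finset.mem_union, Set.Finite.mem_toFinset, Set.mem_ofPred_eq, not_or,
      not_not] at hv
    exact ⟨hv.2.1, hv.2.2.1, hv.2.2.2.1, hv.2.2.2.2.1, hv.2.2.2.2.2⟩
  have e1 := logHeight_sum hy W fun v hv => (hmem v hv).1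
  have e2 := logHeight_sum hc₁ W fun v hv => (hmem v hv).2.1
  have e3 := logHeight_sum hc₂ W fun v hv => (hmem v hv).2.2.1
  have e3' := logHeight_sum hc₃ W fun v hv => (hmem v hv).2.2.2.1
  have e4 := product_log hz W fun v hv => (hmem v hv).2.2.2.2
  have e5 : ∀ v : HeightOneSpectrum (𝓞 K),
      0 ≤ k₁ * Real.log (⨆ i, fv v (c₁ i)) + k₂ * Real.log (⨆ i, fv v (c₂ i)) +
        k₃ * Real.log (⨆ i, fv v (c₃ i)) -
        Real.log (fv v z) - Real.log (⨆ i, fv v (y i)) := by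
    intro v
    have p1 := sup_fv_pos v hy
    have p2 := sup_fv_pos v hc₁
    have p3 := sup_fv_pos v hc₂
    have p3' := sup_fv_pos v hc₃
    have p4 := (fv v).pos hz
    have h3 := Real.log_le_log (mul_pos p4 p1) (h1 v)
    rw [Real.log_mul p4.ne' p1.ne', Real.log_mul (mul_pos (pow_pos p2 _) (pow_pos p3 _)).ne'
      (pow_pos p3' _).ne', Real.log_mul (pow_pos p2 _).ne' (pow_pos p3 _).ne',
      Real.log_pow, Real.log_pow, Real.log_pow] at h3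
    linarith
  have e6 : ∑ v ∈ V, (k₁ * Real.log (⨆ i, fv v (c₁ i)) + k₂ * Real.log (⨆ i, fv v (c₂ i)) +
        k₃ * Real.log (⨆ i, fv v (c₃ i)) -
        Real.log (fv v z) - Real.log (⨆ i, fv v (y i))) ≤
      ∑ v ∈ W, (k₁ * Real.log (⨆ i, fv v (c₁ i)) + k₂ * Real.log (⨆ i, fv v (c₂ i)) +
        k₃ * Real.log (⨆ i, fv v (c₃ i)) -
        Real.log (fv v z) - Real.log (⨆ i, fv v (y i))) :=
    Finset.sum_le_sum_of_subset_of_nonneg hVW fun v _ _ => e5 v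
  have e6' : ∑ v ∈ W, (k₁ * Real.log (⨆ i, fv v (c₁ i)) + k₂ * Real.log (⨆ i, fv v (c₂ i)) +
        k₃ * Real.log (⨆ i, fv v (c₃ i)) -
        Real.log (fv v z) - Real.log (⨆ i, fv v (y i))) =
      k₁ * ∑ v ∈ W, Real.log (⨆ i, fv v (c₁ i)) + k₂ * ∑ v ∈ W, Real.log (⨆ i, fv v (c₂ i)) +
        k₃ * ∑ v ∈ W, Real.log (⨆ i, fv v (c₃ i)) -
        ∑ v ∈ W, Real.log (fv v z) - ∑ v ∈ W, Real.log (⨆ i, fv v (y i)) := by
    rw [Finset.sum_sub_distrib, Finset.sum_sub_distrib, Finset.sum_add_distrib,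
      Finset.sum_add_distrib, ← Finset.mul_sum, ← Finset.mul_sum, ← Finset.mul_sum]
  rw [e6'] at e6
  have e7 : ∀ w : InfinitePlace K, (w.mult : ℝ) * Real.log (w z) +
      (w.mult : ℝ) * Real.log (⨆ i, w (y i)) ≤ (w.mult : ℝ) * Real.log A +
        (k₁ * ((w.mult : ℝ) * Real.log (⨆ i, w (c₁ i))) +
          k₂ * ((w.mult : ℝ) * Real.log (⨆ i, w (c₂ i))) +
          k₃ * ((w.mult : ℝ) * Real.log (⨆ i, w (c₃ i)))) := by
    intro w
    have p1 := sup_w_pos w hy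
    have p2 := sup_w_pos w hc₁
    have p3 := sup_w_pos w hc₂
    have p3' := sup_w_pos w hc₃
    have p4 : 0 < w z := w.pos_iff.2 hz
    have p5 : 0 < A := by linarith
    have h3 := Real.log_le_log (mul_pos p4 p1) (h2 w)
    rw [Real.log_mul p4.ne' p1.ne', Real.log_mul p5.ne' (mul_pos (mul_pos (pow_pos p2 _)
      (pow_pos p3 _)) (pow_pos p3' _)).ne', Real.log_mul (mul_pos (pow_pos p2 _)
      (pow_pos p3 _)).ne' (pow_pos p3' _).ne', Real.log_mul (pow_pos p2 _).ne' (pow_pos p3 _).ne',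
      Real.log_pow, Real.log_pow, Real.log_pow] at h3
    have h4 := mul_le_mul_of_nonneg_left h3 (Nat.cast_nonneg (α := ℝ) w.mult)
    linarith
  have e8 := Finset.sum_le_sum fun w (_ : w ∈ (Finset.univ : Finset (InfinitePlace K))) => e7 w
  rw [Finset.sum_add_distrib, Finset.sum_add_distrib, Finset.sum_add_distrib,
    Finset.sum_add_distrib, ← Finset.sum_mul, ← Finset.mul_sum, ← Finset.mul_sum,
    ← Finset.mul_sum] at e8
  have e9 : ∑ w : InfinitePlace K, (w.mult : ℝ) = Module.finrank ℚ K := by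
    exact_mod_cast InfinitePlace.sum_mult_eq (K := K)
  rw [e9] at e8
  rw [e1, e2, e3, e3']
  linarith

end Pool.Agent.Z932.U557
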