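import Pool.Agent.Y557.U.Stm3
import Pool.Agent.Z932.U557.PF30

/-!
# The product formula as an inequality, with three vectors (`S_PF3`)
-/

set_option autoImplicit false

namespace Pool.Agent.Z932.U557

open NumberField

theorem pf3_holds (K : Type) [Field K] [NumberField K] : Pool.Agent.Y557.U.S_PF3 K := by
  intro ι ι₁ ι₂ ι₃ _ _ _ _ y c₁ c₂ c₃ z k₁ k₂ k₃ A hy hc₁ hc₂ hc₃ hz hA h1 h2 V
  exact pf3 ι ι₁ ι₂ ι₃ y c₁ c₂ c₃ z k₁ k₂ k₃ A hy hc₁ hc₂ hc₃ hz hA h1 h2 V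

end Pool.Agent.Z932.U557
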